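import Pool.Agent.H932Z.FM.Upper

set_option autoImplicit false

/-!
Unconditional explicit upper bound for the first absolute moment of zeta on the critical line.
-/

open Filter

theorem Pool.Agent.Results.MP_91b7ff_nt.AFirstMomentUpper.result :
    ∀ᶠ T : ℝ in atTop,
      ∫ t in (0:ℝ)..T, ‖riemannZeta (1 / 2 + t * Complex.I)‖ ≤
        1.316 * ((∏' p : Nat.Primes, ((1 - 1 / (p : ℝ)) ^ (1 / 4 : ℝ) *
          ∑' m : ℕ, (∏ i ∈ Finset.range m, ((1 / 2 : ℝ) + i) / ((i : ℝ) + 1)) ^ 2 *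
            (1 / (p : ℝ)) ^ m)) / Real.Gamma (5 / 4)) * (T * Real.log T ^ (1 / 4 : ℝ)) := by
  have h := Pool.Agent.H932Z.FM.upper
  unfold Pool.Agent.H932Z.FM.cA Pool.Agent.H932Z.FM.zt Pool.Agent.H306R2.aF
    Pool.Agent.H306R2.lc at h
  rw [show ((1 / 2 : ℝ)) ^ (2 : ℕ) = 1 / 4 by norm_num] at h
  exact h
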